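import Pool.Agent.TH458.VC.Defs

set_option autoImplicit false

/-!
# Passage from the finite upper bound to the asymptotic one
-/

namespace Pool.Agent.TH458.VCA2

open Finset
open Pool.Agent.TH458.VC

/-- `log Φ(m,d) ≤ d (1 + log (m / d))`. -/
theorem logPhi (m d : ℕ) (hd : 1 ≤ d) (hdm : d ≤ m) :
    Real.log (Phi m d) ≤ d * (1 + Real.log ((m : ℝ) / d)) := by
  have hd0 : (0 : ℝ) < d := by exact_mod_cast hd
  have hm0 : (0 : ℝ) < m := lt_of_lt_of_le hd0 (by exact_mod_cast hdm)
  set y : ℝ := (d : ℝ) / m with hy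
  have hy0 : 0 < y := by positivity
  have hy1 : y ≤ 1 := by
    rw [hy, div_le_one hm0]; exact_mod_cast hdm
  have h1 : y ^ d * (Phi m d : ℝ) ≤ Real.exp (y * m) := by
    unfold Phi
    push_cast
    rw [mul_sum]
    calc ∑ i ∈ range (d + 1), y ^ d * (m.choose i : ℝ)
        ≤ ∑ i ∈ range (d + 1), y ^ i * (m.choose i : ℝ) := by
          apply sum_le_sum
          intro i hi
          apply mul_le_mul_of_nonneg_right _ (by positivity)
          exact pow_le_pow_of_le_one hy0.le hy1 (Nat.lt_succ_iff.1 (mem_range.1 hi))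
      _ ≤ ∑ i ∈ range (m + 1), y ^ i * (m.choose i : ℝ) := by
          apply sum_le_sum_of_subset_of_nonneg
          · intro i hi
            rw [mem_range] at hi ⊢
            omega
          · intro i _ _
            positivity
      _ = (y + 1) ^ m := by
          rw [add_pow]
          apply sum_congr rfl
          intro i _
          rw [one_pow, mul_one]
      _ ≤ (Real.exp y) ^ m := by
          apply pow_le_pow_left₀ (by positivity)
          exact Real.add_one_le_exp y
      _ = Real.exp (y * m) := by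
          rw [← Real.exp_nat_mul, mul_comm]
  have hPhi : (0 : ℝ) < Phi m d := by
    unfold Phi
    have : 0 < ∑ i ∈ range (d + 1), m.choose i := by
      apply Finset.sum_pos'
      · intro i _; exact Nat.zero_le _
      · exact ⟨0, by simp, by simp⟩
    exact_mod_cast this
  have hym : y * m = d := by rw [hy]; field_simp
  rw [hym] at h1
  have h2 := Real.log_le_log (by positivity) h1
  rw [Real.log_exp, Real.log_mul (by positivity) hPhi.ne', Real.log_pow] at h2
  have h3 : Real.log y = - Real.log ((m : ℝ) / d) := by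
    rw [hy, ← Real.log_inv, inv_div]
  rw [h3] at h2
  linarith

theorem choose_le_Phi (m a : ℕ) : m.choose a ≤ Phi m a := by
  unfold Phi
  exact Finset.single_le_sum (f := fun i => m.choose i) (fun i _ => Nat.zero_le _)
    (mem_range.2 (Nat.lt_succ_self a))

theorem choose_le_pow' (k a : ℕ) : (a + k).choose a ≤ (k + 1) ^ a := by
  induction a with
  | zero => simp
  | succ a ih =>
    have h1 : (a + 1 + k).choose (a + 1) * (a + 1) = (a + 1 + k) * (a + k).choose a := by
      have := Nat.add_one_mul_choose_eq (a + k) a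
      have h2 : a + 1 + k = a + k + 1 := by ring
      rw [h2, ← this]
    have h3 : a + 1 + k ≤ (a + 1) * (k + 1) := by nlinarith
    have h4 : (a + 1 + k).choose (a + 1) * (a + 1) ≤ (k + 1) ^ (a + 1) * (a + 1) := by
      calc (a + 1 + k).choose (a + 1) * (a + 1) = (a + 1 + k) * (a + k).choose a := h1
        _ ≤ ((a + 1) * (k + 1)) * (k + 1) ^ a := Nat.mul_le_mul h3 ih
        _ = (k + 1) ^ (a + 1) * (a + 1) := by ring
    exact Nat.le_of_mul_le_mul_right h4 (Nat.succ_pos a)

/-- Taking logarithms of the finite bound. -/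
theorem log_bound (n k d a T : ℕ) (hn : 1 ≤ n) (hd : 1 ≤ d) (hT : 1 ≤ T)
    (h : n < 4 ^ (2 * T) * (2 * (11264 * T ^ 2) ^ d * Phi (T * a) d * (a + k).choose a)) :
    Real.log n ≤ 3 * T + 1 + 10 * d + 2 * d * Real.log T + Real.log (Phi (T * a) d)
      + Real.log ((a + k).choose a : ℕ) := by
  have hn0 : (0 : ℝ) < n := by exact_mod_cast hn
  have hT0 : (0 : ℝ) < T := by exact_mod_cast hT
  have hPhi : (0 : ℝ) < Phi (T * a) d := by
    unfold Phi
    have : 0 < ∑ i ∈ range (d + 1), (T * a).choose i := by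
      apply Finset.sum_pos'
      · intro i _; exact Nat.zero_le _
      · exact ⟨0, by simp, by simp⟩
    exact_mod_cast this
  have hC : (0 : ℝ) < ((a + k).choose a : ℕ) := by
    exact_mod_cast Nat.choose_pos (Nat.le_add_right a k)
  have h' : (n : ℝ) ≤ 4 ^ (2 * T) * (2 * (11264 * (T : ℝ) ^ 2) ^ d * Phi (T * a) d *
      ((a + k).choose a : ℕ)) := by exact_mod_cast h.le
  have h1 := Real.log_le_log hn0 h'
  rw [Real.log_mul (by positivity) (by positivity), Real.log_mul (by positivity) hC.ne',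
    Real.log_mul (by positivity) hPhi.ne', Real.log_mul (by norm_num) (by positivity),
    Real.log_pow, Real.log_pow, Real.log_mul (by norm_num) (by positivity), Real.log_pow] at h1
  have hl2 := Real.log_two_lt_d9
  have h4 : Real.log 4 = 2 * Real.log 2 := by
    have : (4 : ℝ) = 2 ^ 2 := by norm_num
    rw [this, Real.log_pow]; norm_num
  have h5 : Real.log 11264 ≤ 14 * Real.log 2 := by
    rw [show (14 : ℝ) * Real.log 2 = Real.log (2 ^ 14) by rw [Real.log_pow]; norm_num]
    exact Real.log_le_log (by norm_num) (by norm_num)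
  have hd0 : (0 : ℝ) < d := by exact_mod_cast hd
  push_cast at h1 ⊢
  rw [h4] at h1
  nlinarith

theorem log_four_le (x : ℝ) (hx : 0 < x) : Real.log (4 * x) ≤ 2 + Real.log (2 + x) := by
  have hl2 := Real.log_two_lt_d9
  have h4 : Real.log 4 = 2 * Real.log 2 := by
    have : (4 : ℝ) = 2 ^ 2 := by norm_num
    rw [this, Real.log_pow]; norm_num
  rw [Real.log_mul (by norm_num) hx.ne', h4]
  have : Real.log x ≤ Real.log (2 + x) := Real.log_le_log hx (by linarith)
  linarith

theorem one_le_lam (x : ℝ) (hx : 1 ≤ x) : 1 ≤ Real.log (2 + x) := by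
  rw [Real.le_log_iff_exp_le (by linarith)]
  have := Real.exp_one_lt_d9
  linarith

/-- `log Φ(m,d) ≤ 4 d log (2 + k / d)` for `d ≤ m ≤ 4 k`. -/
theorem logPhi' (m k d : ℕ) (hd : 1 ≤ d) (hdm : d ≤ m) (hdk : d ≤ k) (hm : m ≤ 4 * k) :
    Real.log (Phi m d) ≤ 4 * (d * Real.log (2 + (k : ℝ) / d)) := by
  have h1 := logPhi m d hd hdm
  have hd0 : (0 : ℝ) < d := by exact_mod_cast hd
  have hm0 : (0 : ℝ) < m := lt_of_lt_of_le hd0 (by exact_mod_cast hdm)
  have hk0 : (0 : ℝ) < k := lt_of_lt_of_le hd0 (by exact_mod_cast hdk)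
  have hkd : 1 ≤ (k : ℝ) / d := by
    rw [le_div_iff₀ hd0]; rw [one_mul]; exact_mod_cast hdk
  have h2 : Real.log ((m : ℝ) / d) ≤ 2 + Real.log (2 + (k : ℝ) / d) := by
    refine le_trans (Real.log_le_log (by positivity) ?_) (log_four_le ((k : ℝ) / d) (by positivity))
    rw [← mul_div_assoc]
    apply div_le_div_of_nonneg_right _ hd0.le
    exact_mod_cast hm
  have h3 := one_le_lam _ hkd
  nlinarith

theorem case2 (n k d : ℕ) (hn : 1 ≤ n) (hd : 1 ≤ d) (hdk : d < k) (hdd : k ≤ d ^ 2)
    (h : ∀ a T : ℕ, 1 ≤ a → 1 ≤ T → 2 * k ≤ T * a →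
      n < 4 ^ (2 * T) * (2 * (11264 * T ^ 2) ^ d * Phi (T * a) d * (a + k).choose a)) :
    Real.log n ≤ 30 * (d * Real.log (2 + (k : ℝ) / d)) := by
  have hd0 : (0 : ℝ) < d := by exact_mod_cast hd
  have hk0 : (0 : ℝ) < k := lt_trans hd0 (by exact_mod_cast hdk)
  have hkd : 1 ≤ (k : ℝ) / d := by
    rw [le_div_iff₀ hd0]; rw [one_mul]; exact_mod_cast hdk.le
  have hlam := one_le_lam _ hkd
  set lam := Real.log (2 + (k : ℝ) / d) with hlamdef
  have hTlow : k ≤ (k / d + 1) * d := by
    have := Nat.lt_div_mul_add (a := k) hd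
    rw [add_mul, one_mul]
    exact this.le
  have hThigh : (k / d + 1) * d ≤ k + d := by
    have := Nat.div_mul_le_self k d
    rw [add_mul, one_mul]
    omega
  set T := k / d + 1 with hT
  have hT1 : 1 ≤ T := Nat.le_add_left 1 _
  have hTa : 2 * k ≤ T * (2 * d) := by nlinarith
  have hTa2 : T * (2 * d) ≤ 4 * k := by nlinarith
  have hb := log_bound n k d (2 * d) T hn hd hT1 (h (2 * d) T (by omega) hT1 hTa)
  have h1 := logPhi' (T * (2 * d)) k d hd (by omega) hdk.le hTa2
  rw [← hlamdef] at h1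
  have hTr : (T : ℝ) ≤ (k : ℝ) / d + 1 := by
    have : (T : ℝ) * d ≤ k + d := by exact_mod_cast hThigh
    rw [← sub_le_iff_le_add, le_div_iff₀ hd0]
    nlinarith
  have hT0 : (0 : ℝ) < T := by exact_mod_cast hT1
  have h2 : Real.log T ≤ lam := Real.log_le_log hT0 (by linarith)
  have h3 : Real.log ((2 * d + k).choose (2 * d) : ℕ) ≤ 4 * (d * lam) := by
    have h4 : Real.log ((2 * d + k).choose (2 * d) : ℕ) ≤ Real.log (Phi (2 * d + k) (2 * d)) := by
      apply Real.log_le_log
      · exact_mod_cast Nat.choose_pos (Nat.le_add_right _ _)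
      · exact_mod_cast choose_le_Phi (2 * d + k) (2 * d)
    have h5 := logPhi (2 * d + k) (2 * d) (by omega) (by omega)
    have h6 : Real.log (((2 * d + k : ℕ) : ℝ) / ((2 * d : ℕ) : ℝ)) ≤ lam := by
      apply Real.log_le_log (by positivity)
      push_cast
      have h7 : (2 * (d : ℝ) + k) / (2 * d) = 1 + (k / d) / 2 := by field_simp
      rw [h7]
      linarith
    push_cast at h4 h5 h6 ⊢
    nlinarith
  have h8 : (T : ℝ) ≤ 2 * d := by
    have h9 : (k : ℝ) / d ≤ d := by
      rw [div_le_iff₀ hd0]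
      have : (k : ℝ) ≤ (d : ℝ) ^ 2 := by exact_mod_cast hdd
      nlinarith
    have : (1 : ℝ) ≤ d := by exact_mod_cast hd
    linarith
  have h10 : (d : ℝ) ≤ d * lam := by nlinarith
  have h11 : (1 : ℝ) ≤ d := by exact_mod_cast hd
  have h12 : (d : ℝ) * Real.log T ≤ d * lam := mul_le_mul_of_nonneg_left h2 hd0.le
  linarith

theorem case3 (n k d : ℕ) (hn : 1 ≤ n) (hk : 2 ≤ k) (hd : 1 ≤ d) (hdd : d ^ 2 ≤ k)
    (h : ∀ a T : ℕ, 1 ≤ a → 1 ≤ T → 2 * k ≤ T * a →
      n < 4 ^ (2 * T) * (2 * (11264 * T ^ 2) ^ d * Phi (T * a) d * (a + k).choose a)) :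
    Real.log n ≤ 30 * (d * Real.log (2 + (k : ℝ) / d)) + 30 * Real.sqrt (k * Real.log k) := by
  have hd0 : (0 : ℝ) < d := by exact_mod_cast hd
  have hk0 : (0 : ℝ) < k := by
    have : 0 < k := by omega
    exact_mod_cast this
  have hk2 : (2 : ℝ) ≤ k := by exact_mod_cast hk
  have hdk : d ≤ k := by nlinarith
  have hkd : 1 ≤ (k : ℝ) / d := by
    rw [le_div_iff₀ hd0]; rw [one_mul]; exact_mod_cast hdk
  have hlam := one_le_lam _ hkd
  set lam := Real.log (2 + (k : ℝ) / d) with hlamdef
  have hl2 := Real.log_two_gt_d9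
  have hlk : Real.log 2 ≤ Real.log k := Real.log_le_log (by norm_num) hk2
  have hlk0 : 0 < Real.log k := by linarith
  have hlkk : Real.log k ≤ k := (Real.log_le_sub_one_of_pos hk0).trans (by linarith)
  set s := Real.sqrt (k * Real.log k) with hs
  have hss : s * s = k * Real.log k := Real.mul_self_sqrt (by positivity)
  have hs1 : 1 ≤ s := by
    rw [hs, Real.one_le_sqrt]
    nlinarith
  have hsk : s ≤ k := by
    rw [hs, Real.sqrt_le_left hk0.le]
    nlinarith
  have hlks : Real.log k ≤ s := by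
    rw [hs]
    apply Real.le_sqrt_of_sq_le
    nlinarith
  set T := ⌈s⌉₊ with hT
  have hTs : s ≤ T := Nat.le_ceil s
  have hTs2 : (T : ℝ) < s + 1 := Nat.ceil_lt_add_one (by linarith)
  have hT0 : (0 : ℝ) < T := by linarith
  have hT1 : 1 ≤ T := by
    have : 0 < T := by exact_mod_cast hT0
    omega
  have hT2k : T ≤ 2 * k := by
    have : (T : ℝ) ≤ 2 * k := by linarith
    exact_mod_cast this
  set a := 2 * k / T + 1 with ha
  have hTa : 2 * k ≤ T * a := by
    have := Nat.lt_mul_div_succ (2 * k) hT1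
    rw [ha]; exact this.le
  have hTa2 : T * a ≤ 4 * k := by
    have := Nat.div_mul_le_self (2 * k) T
    rw [ha]
    nlinarith
  have ha1 : 1 ≤ a := Nat.le_add_left 1 _
  have hb := log_bound n k d a T hn hd hT1 (h a T ha1 hT1 hTa)
  have h1 := logPhi' (T * a) k d hd (by omega) hdk hTa2
  rw [← hlamdef] at h1
  -- the logarithm of `k`
  have hlklam : Real.log k ≤ 2 * lam := by
    have h2 : (k : ℝ) ≤ (2 + (k : ℝ) / d) ^ 2 := by
      have h3 : (k : ℝ) ≤ ((k : ℝ) / d) ^ 2 := by
        rw [div_pow, le_div_iff₀ (by positivity)]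
        have : (d : ℝ) ^ 2 ≤ k := by exact_mod_cast hdd
        nlinarith
      nlinarith
    have h3 := Real.log_le_log hk0 h2
    rw [Real.log_pow] at h3
    push_cast at h3
    exact h3
  have hlT : Real.log T ≤ 4 * lam := by
    have h2 : (T : ℝ) ≤ (k : ℝ) ^ 2 := by
      have : (T : ℝ) ≤ 2 * k := by linarith
      nlinarith
    have h3 := Real.log_le_log hT0 h2
    rw [Real.log_pow] at h3
    push_cast at h3
    linarith
  have har : (a : ℝ) ≤ 2 * k / s + 1 := by
    have h2 : ((2 * k / T : ℕ) : ℝ) ≤ (2 * k : ℝ) / T := by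
      have := Nat.cast_div_le (α := ℝ) (m := 2 * k) (n := T)
      push_cast at this
      exact this
    have h3 : (2 * k : ℝ) / T ≤ 2 * k / s := by
      apply div_le_div_of_nonneg_left (by positivity) (by linarith) hTs
    rw [ha]
    push_cast
    linarith
  have h4 : Real.log ((a + k).choose a : ℕ) ≤ 6 * s := by
    have h5 : Real.log ((a + k).choose a : ℕ) ≤ Real.log ((((k + 1) ^ a : ℕ)) : ℝ) := by
      apply Real.log_le_log
      · exact_mod_cast Nat.choose_pos (Nat.le_add_right _ _)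
      · exact_mod_cast choose_le_pow' k a
    push_cast at h5
    rw [Real.log_pow] at h5
    have h6 : Real.log ((k : ℝ) + 1) ≤ 2 * Real.log k := by
      have h7 : ((k : ℝ) + 1) ≤ (k : ℝ) ^ 2 := by nlinarith
      have h8 := Real.log_le_log (by positivity) h7
      rw [Real.log_pow] at h8
      push_cast at h8
      exact h8
    have h9 : (a : ℝ) * Real.log ((k : ℝ) + 1) ≤ (2 * k / s + 1) * (2 * Real.log k) := by
      apply mul_le_mul har h6 _ (by positivity)
      apply Real.log_nonneg; linarith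
    have h10 : (2 * k / s + 1) * (2 * Real.log k) = 4 * s + 2 * Real.log k := by
      have h11 : (k : ℝ) * Real.log k / s = s := by
        rw [← hss]; field_simp
      calc (2 * k / s + 1) * (2 * Real.log k) = 4 * (k * Real.log k / s) + 2 * Real.log k := by ring
        _ = 4 * s + 2 * Real.log k := by rw [h11]
    linarith
  have h12 : (d : ℝ) * Real.log T ≤ d * (4 * lam) := mul_le_mul_of_nonneg_left hlT hd0.le
  have h13 : (d : ℝ) ≤ d * lam := by nlinarith
  linarith

theorem t_ASY : S_ASY := by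
  refine ⟨30, by norm_num, fun n k d hn hk hd hnk h => ?_⟩
  have hd0 : (0 : ℝ) < d := by exact_mod_cast hd
  have hk0 : (0 : ℝ) < k := by
    have : 0 < k := by omega
    exact_mod_cast this
  have hsq := Real.sqrt_nonneg (k * Real.log k)
  rcases Nat.lt_or_ge d k with hdk | hdk
  · rcases Nat.lt_or_ge (d ^ 2) k with hdd | hdd
    · have := case3 n k d hn hk hd hdd.le h
      linarith
    · have := case2 n k d hn hd hdk hdd h
      linarith
  · have hn0 : (0 : ℝ) < n := by exact_mod_cast hn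
    have h1 : (n : ℝ) ≤ (4 : ℝ) ^ k := by exact_mod_cast hnk.le
    have h2 := Real.log_le_log hn0 h1
    rw [Real.log_pow] at h2
    have h4 : Real.log 4 = 2 * Real.log 2 := by
      have : (4 : ℝ) = 2 ^ 2 := by norm_num
      rw [this, Real.log_pow]; norm_num
    have h5 : Real.log 2 ≤ Real.log (2 + (k : ℝ) / d) :=
      Real.log_le_log (by norm_num) (by linarith [show (0 : ℝ) ≤ (k : ℝ) / d by positivity])
    have h6 : (k : ℝ) ≤ d := by exact_mod_cast hdk
    have hl2 : 0 < Real.log 2 := Real.log_pos (by norm_num)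
    rw [h4] at h2
    have h7 : (k : ℝ) * (2 * Real.log 2) ≤ d * (2 * Real.log (2 + (k : ℝ) / d)) :=
      mul_le_mul h6 (by linarith) (by positivity) hd0.le
    have h8 : 0 ≤ (d : ℝ) * Real.log (2 + (k : ℝ) / d) :=
      mul_nonneg hd0.le (by linarith)
    linarith

end Pool.Agent.TH458.VCA2
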