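import Pool.Agent.TH615.VCGraph
import Pool.Agent.TH365.J1283

set_option autoImplicit false

/-!
# The lower bound: random sparse graphs
-/

namespace Pool.Agent.TH458.VC

open Finset

theorem t_LOW : S_LOW := by
  intro d k q hd hq hk
  have h := Pool.Agent.TH458.VCC.numeric d k q hd hq hk
  have hpow : d + 1 ≤ 2 ^ d := Nat.lt_two_pow_self
  obtain ⟨G, h1, h2, h3⟩ := Pool.Agent.TH458.VCB.exists_graph (q ^ (d / 4)) k d q
    (2 ^ d - (d + 1)) ((d + 2) / 2) (by omega) (by omega) (by omega) h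
  exact ⟨q ^ (d / 4), G, h1, h2, h3, le_refl _⟩

/-- The lower bound in closed form. -/
theorem lower (d k : ℕ) (hd : 10 ≤ d) (hk : 65536 * d ≤ k) :
    ∃ (n : ℕ) (G : SimpleGraph (Fin n)), G.CliqueFree k ∧ Gᶜ.CliqueFree k ∧ VCle G d ∧
      ((d : ℝ) / 32) * Real.log ((k : ℝ) / d) ≤ Real.log n := by
  set q := Nat.sqrt (k / d) with hqdef
  have hd0 : 0 < d := by omega
  have hkd : 65536 ≤ k / d := by
    rw [Nat.le_div_iff_mul_le hd0]; exact hk
  have hq256 : 256 ≤ q := by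
    rw [hqdef, Nat.le_sqrt]; omega
  have hq2 : q * q ≤ k / d := Nat.sqrt_le (k / d)
  have hdq : d * q ^ 2 ≤ k := by
    calc d * q ^ 2 = (q * q) * d := by ring
      _ ≤ (k / d) * d := Nat.mul_le_mul_right _ hq2
      _ ≤ k := Nat.div_mul_le_self k d
  have hlt : k / d < (q + 1) * (q + 1) := Nat.lt_succ_sqrt (k / d)
  obtain ⟨n, G, h1, h2, h3, hn⟩ := t_LOW d k q hd hq256 hdq
  refine ⟨n, G, h1, h2, h3, ?_⟩
  have hq0 : (0 : ℝ) < q := by
    have : 0 < q := by omega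
    exact_mod_cast this
  have hlogq : 0 ≤ Real.log q := by
    apply Real.log_nonneg
    have : 1 ≤ q := by omega
    exact_mod_cast this
  have hn' : ((q : ℝ)) ^ (d / 4) ≤ (n : ℝ) := by exact_mod_cast hn
  have hlogn : ((d / 4 : ℕ) : ℝ) * Real.log q ≤ Real.log n := by
    rw [← Real.log_pow]
    exact Real.log_le_log (by positivity) hn'
  have hd4 : (d : ℝ) / 8 ≤ ((d / 4 : ℕ) : ℝ) := by
    have h8 : d ≤ 8 * (d / 4) := by omega
    have : (d : ℝ) ≤ 8 * ((d / 4 : ℕ) : ℝ) := by exact_mod_cast h8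
    linarith
  have hx : (k : ℝ) / d ≤ (q : ℝ) ^ 4 := by
    rw [div_le_iff₀ (by exact_mod_cast hd0)]
    have h5 : k < d * (k / d + 1) := by
      rw [mul_comm]
      exact Nat.lt_mul_of_div_lt (Nat.lt_succ_self _) hd0
    have h6 : k / d + 1 ≤ q ^ 4 := by
      have h7 : q + 1 ≤ q ^ 2 := by nlinarith
      calc k / d + 1 ≤ (q + 1) * (q + 1) := hlt
        _ ≤ q ^ 2 * q ^ 2 := Nat.mul_le_mul h7 h7
        _ = q ^ 4 := by ring
    have h8 : k ≤ q ^ 4 * d := by
      calc k ≤ d * (k / d + 1) := h5.le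
        _ ≤ d * q ^ 4 := Nat.mul_le_mul_left _ h6
        _ = q ^ 4 * d := by ring
    exact_mod_cast h8
  have hk0 : (0 : ℝ) < (k : ℝ) / d := by
    have : 0 < k := by omega
    positivity
  have hlogx : Real.log ((k : ℝ) / d) ≤ 4 * Real.log q := by
    calc Real.log ((k : ℝ) / d) ≤ Real.log ((q : ℝ) ^ 4) := Real.log_le_log hk0 hx
      _ = 4 * Real.log q := by rw [Real.log_pow]; norm_num
  have hd00 : (0 : ℝ) ≤ (d : ℝ) / 32 := by positivity
  calc ((d : ℝ) / 32) * Real.log ((k : ℝ) / d) ≤ ((d : ℝ) / 32) * (4 * Real.log q) :=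
        mul_le_mul_of_nonneg_left hlogx hd00
    _ = ((d : ℝ) / 8) * Real.log q := by ring
    _ ≤ ((d / 4 : ℕ) : ℝ) * Real.log q := mul_le_mul_of_nonneg_right hd4 hlogq
    _ ≤ Real.log n := hlogn

/-- The growth rate for VC-dimension at most `ε k` is at least `(ε / 64) log (1 / ε)`. -/
theorem rate_lower (ε : ℝ) (hε : 0 < ε) (hε1 : ε ≤ 1 / 65536) :
    ∃ K : ℕ, ∀ k : ℕ, K ≤ k → ∃ (n : ℕ) (G : SimpleGraph (Fin n)),
      G.CliqueFree k ∧ Gᶜ.CliqueFree k ∧ VCle G ⌊ε * k⌋₊ ∧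
      (1 / 64) * (ε * Real.log (1 / ε)) ≤ Real.log n / k := by
  obtain ⟨K, hK⟩ := exists_nat_ge (11 / ε)
  refine ⟨max K 1, fun k hk => ?_⟩
  have hkK : K ≤ k := le_trans (le_max_left _ _) hk
  have hk0 : (0 : ℝ) < k := by
    have : 1 ≤ k := le_trans (le_max_right _ _) hk
    exact_mod_cast this
  have hεk : 11 ≤ ε * k := by
    have h1 : 11 / ε ≤ k := hK.trans (by exact_mod_cast hkK)
    rw [div_le_iff₀ hε] at h1
    linarith
  set d := ⌊ε * (k : ℝ)⌋₊ with hd
  have hdle : (d : ℝ) ≤ ε * k := Nat.floor_le (by positivity)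
  have hdge : ε * k < d + 1 := Nat.lt_floor_add_one _
  have hd10 : 10 ≤ d := by
    have : (10 : ℝ) < d := by linarith
    have : 10 < d := by exact_mod_cast this
    omega
  have hd0 : (0 : ℝ) < d := by
    have : 0 < d := by omega
    exact_mod_cast this
  have hkd : 65536 * d ≤ k := by
    have : (65536 : ℝ) * d ≤ k := by nlinarith
    exact_mod_cast this
  obtain ⟨n, G, h1, h2, h3, h4⟩ := lower d k hd10 hkd
  refine ⟨n, G, h1, h2, h3, ?_⟩
  rw [le_div_iff₀ hk0]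
  have h5 : Real.log (1 / ε) ≤ Real.log ((k : ℝ) / d) := by
    apply Real.log_le_log (by positivity)
    rw [div_le_div_iff₀ hε hd0]
    linarith
  have h6 : 0 ≤ Real.log (1 / ε) := by
    apply Real.log_nonneg
    rw [le_div_iff₀ hε]; linarith
  calc (1 / 64) * (ε * Real.log (1 / ε)) * k = ((ε * k) / 64) * Real.log (1 / ε) := by ring
    _ ≤ ((d : ℝ) / 32) * Real.log (1 / ε) := by
        apply mul_le_mul_of_nonneg_right _ h6
        linarith
    _ ≤ ((d : ℝ) / 32) * Real.log ((k : ℝ) / d) :=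
        mul_le_mul_of_nonneg_left h5 (by positivity)
    _ ≤ Real.log n := h4

end Pool.Agent.TH458.VC
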