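import Pool.Agent.TH458.VC.Defs
import Pool.Agent.H818R2.Ram.Erdos

set_option autoImplicit false

/-!
# Corollaries of the upper bound
-/

namespace Pool.Agent.TH458.VC

open Finset Filter

/-- The asymptotic upper bound. -/
def S_UP : Prop :=
  ∃ C : ℝ, 0 < C ∧ ∀ (n k d : ℕ) (G : SimpleGraph (Fin n)), 1 ≤ n → 2 ≤ k → 1 ≤ d →
    G.CliqueFree k → Gᶜ.CliqueFree k → VCle G d →
    Real.log n ≤ C * (d * Real.log (2 + (k : ℝ) / d) + Real.sqrt (k * Real.log k))

theorem VCle.mono {V : Type} {G : SimpleGraph V} {d e : ℕ} (h : VCle G d) (hde : d ≤ e) :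
    VCle G e := fun S hS => (h S hS).trans hde

/-- `√(k log k) ≤ δ k` for large `k`. -/
theorem sqrt_small (δ : ℝ) (hδ : 0 < δ) :
    ∃ K : ℕ, ∀ k : ℕ, K ≤ k → Real.sqrt (k * Real.log k) ≤ δ * k := by
  have h1 : Tendsto (fun x : ℝ => Real.log x / x) atTop (nhds 0) := by
    have := Real.isLittleO_log_id_atTop.tendsto_div_nhds_zero
    simpa using this
  have h2 : Tendsto (fun k : ℕ => Real.log (k : ℝ) / (k : ℝ)) atTop (nhds 0) :=
    h1.comp tendsto_natCast_atTop_atTop
  have h3 : ∀ᶠ k : ℕ in atTop, Real.log (k : ℝ) / (k : ℝ) < δ ^ 2 :=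
    h2.eventually (gt_mem_nhds (by positivity))
  obtain ⟨K, hK⟩ := eventually_atTop.1 h3
  refine ⟨max K 1, fun k hk => ?_⟩
  have hk1 : 1 ≤ k := le_trans (le_max_right _ _) hk
  have hk0 : (0 : ℝ) < k := by exact_mod_cast hk1
  have h4 := hK k (le_trans (le_max_left _ _) hk)
  rw [div_lt_iff₀ hk0] at h4
  rw [Real.sqrt_le_left (by positivity)]
  nlinarith

/-- The growth rate for VC-dimension at most `ε k`. -/
theorem rate_upper (hUP : S_UP) : ∃ C : ℝ, 0 < C ∧ ∀ ε : ℝ, 0 < ε → ε ≤ 1 →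
    ∃ K : ℕ, ∀ k : ℕ, K ≤ k → ∀ (n : ℕ) (G : SimpleGraph (Fin n)), 1 ≤ n →
      G.CliqueFree k → Gᶜ.CliqueFree k → VCle G ⌊ε * k⌋₊ →
      Real.log n / k ≤ C * (ε * Real.log (2 / ε)) := by
  obtain ⟨C, hC, h⟩ := hUP
  refine ⟨3 * C, by positivity, fun ε hε hε1 => ?_⟩
  have hl2 : 0 < Real.log 2 := Real.log_pos (by norm_num)
  have hle : Real.log 2 ≤ Real.log (2 / ε) := by
    apply Real.log_le_log (by norm_num)
    rw [le_div_iff₀ hε]; nlinarith
  obtain ⟨K1, hK1⟩ := sqrt_small (ε * Real.log (2 / ε)) (mul_pos hε (lt_of_lt_of_le hl2 hle))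
  obtain ⟨K2, hK2⟩ := exists_nat_ge (2 / ε)
  refine ⟨max K1 (max K2 2), fun k hk n G hn h1 h2 h3 => ?_⟩
  have hkK1 : K1 ≤ k := le_trans (le_max_left _ _) hk
  have hkK2 : K2 ≤ k := le_trans (le_trans (le_max_left _ _) (le_max_right _ _)) hk
  have hk2 : 2 ≤ k := le_trans (le_trans (le_max_right _ _) (le_max_right _ _)) hk
  have hk0 : (0 : ℝ) < k := by
    have : 0 < k := by omega
    exact_mod_cast this
  have hkε : 2 / ε ≤ k := hK2.trans (by exact_mod_cast hkK2)
  have hεk : 2 ≤ ε * k := by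
    rw [div_le_iff₀ hε] at hkε
    linarith
  set d := ⌊ε * (k : ℝ)⌋₊ with hd
  have hdle : (d : ℝ) ≤ ε * k := Nat.floor_le (by positivity)
  have hdge : ε * k < d + 1 := Nat.lt_floor_add_one _
  have hd1 : (1 : ℝ) < d := by linarith
  have hd1' : 1 ≤ d := by
    have : (0 : ℝ) < d := by linarith
    have : 0 < d := by exact_mod_cast this
    omega
  have hd0 : (0 : ℝ) < d := by linarith
  have hmain := h n k d G hn hk2 hd1' h1 h2 h3
  have hratio : 2 + (k : ℝ) / d ≤ (2 / ε) ^ 2 := by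
    have h4 : (k : ℝ) / d ≤ 2 / ε := by
      rw [div_le_div_iff₀ hd0 hε]
      nlinarith
    have h5 : 2 ≤ 2 / ε := by
      rw [le_div_iff₀ hε]; nlinarith
    nlinarith
  have hlog : Real.log (2 + (k : ℝ) / d) ≤ 2 * Real.log (2 / ε) := by
    calc Real.log (2 + (k : ℝ) / d) ≤ Real.log ((2 / ε) ^ 2) :=
          Real.log_le_log (by positivity) hratio
      _ = 2 * Real.log (2 / ε) := by rw [Real.log_pow]; norm_num
  have hfin : Real.log n ≤ 3 * C * (ε * Real.log (2 / ε)) * k := by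
    have h6 : (d : ℝ) * Real.log (2 + (k : ℝ) / d) ≤ (ε * k) * (2 * Real.log (2 / ε)) := by
      apply mul_le_mul hdle hlog _ (by positivity)
      apply Real.log_nonneg
      have : 0 ≤ (k : ℝ) / d := by positivity
      linarith
    have h7 := hK1 k hkK1
    calc Real.log n ≤ C * (d * Real.log (2 + (k : ℝ) / d) + Real.sqrt (k * Real.log k)) := hmain
      _ ≤ C * ((ε * k) * (2 * Real.log (2 / ε)) + ε * Real.log (2 / ε) * k) :=
          mul_le_mul_of_nonneg_left (add_le_add h6 h7) hC.le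
      _ = 3 * C * (ε * Real.log (2 / ε)) * k := by ring
  rw [div_le_iff₀ hk0]
  exact hfin

/-- Colourings on `exp (θ k)` vertices have large VC-dimension. -/
theorem large_vc (hUP : S_UP) : ∃ c : ℝ, 0 < c ∧ ∀ θ : ℝ, 0 < θ → θ ≤ 1 →
    ∃ K : ℕ, ∀ k : ℕ, K ≤ k → ∀ (n : ℕ) (G : SimpleGraph (Fin n)),
      G.CliqueFree k → Gᶜ.CliqueFree k → Real.exp (θ * k) ≤ n →
      ∃ S : Finset (Fin n), Shat G S ∧ c * θ / Real.log (2 / θ) * k ≤ S.card := by
  obtain ⟨C, hC, h⟩ := rate_upper hUP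
  set s : ℝ := 1 / (6 * (C + 1)) with hs
  have hs0 : 0 < s := by positivity
  have hs1 : s ≤ 1 / 6 := by
    rw [hs]
    apply one_div_le_one_div_of_le (by norm_num)
    linarith
  have hCs : 6 * C * s < 1 := by
    rw [hs, mul_one_div, div_lt_one (by positivity)]
    linarith
  refine ⟨s ^ 2, by positivity, fun θ hθ hθ1 => ?_⟩
  have hl2 : (1 : ℝ) / 2 ≤ Real.log 2 := by
    have := Real.log_two_gt_d9
    linarith
  set L := Real.log (2 / θ) with hL
  have hLge : (1 : ℝ) / 2 ≤ L := by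
    apply hl2.trans
    apply Real.log_le_log (by norm_num)
    rw [le_div_iff₀ hθ]; nlinarith
  have hL0 : 0 < L := by linarith
  set ε := s ^ 2 * θ / L with hε
  have hε0 : 0 < ε := by positivity
  have hε1 : ε ≤ 1 := by
    rw [hε, div_le_one hL0]
    have : s ^ 2 * θ ≤ (1 / 6) ^ 2 * 1 := by
      apply mul_le_mul _ hθ1 hθ.le (by positivity)
      exact pow_le_pow_left₀ hs0.le hs1 2
    linarith
  have hlogε : Real.log (2 / ε) ≤ 2 * L + 2 / s := by
    have h1 : 2 / ε = (2 / θ) * L * (1 / s) ^ 2 := by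
      rw [hε]; field_simp
    have h2 : Real.log (2 / ε) = L + Real.log L + 2 * Real.log (1 / s) := by
      rw [h1, Real.log_mul (by positivity) (by positivity),
        Real.log_mul (by positivity) (by positivity), Real.log_pow]
      push_cast
      ring
    have h3 : Real.log L ≤ L := (Real.log_le_sub_one_of_pos hL0).trans (by linarith)
    have h4 : Real.log (1 / s) ≤ 1 / s :=
      (Real.log_le_sub_one_of_pos (by positivity)).trans (by linarith)
    have h5 : (2 : ℝ) / s = 2 * (1 / s) := by ring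
    rw [h2, h5]
    linarith
  have hprod : C * (ε * Real.log (2 / ε)) < θ := by
    have h1 : ε * Real.log (2 / ε) ≤ 6 * s * θ := by
      calc ε * Real.log (2 / ε) ≤ ε * (2 * L + 2 / s) :=
            mul_le_mul_of_nonneg_left hlogε hε0.le
        _ = 2 * s * θ * (s + 1 / L) := by
            rw [hε]; field_simp
        _ ≤ 2 * s * θ * (1 + 2) := by
            apply mul_le_mul_of_nonneg_left _ (by positivity)
            have h6 : 1 / L ≤ 2 := by
              rw [div_le_iff₀ hL0]; linarith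
            linarith
        _ = 6 * s * θ := by ring
    calc C * (ε * Real.log (2 / ε)) ≤ C * (6 * s * θ) := mul_le_mul_of_nonneg_left h1 hC.le
      _ = (6 * C * s) * θ := by ring
      _ < 1 * θ := mul_lt_mul_of_pos_right hCs hθ
      _ = θ := one_mul θ
  obtain ⟨K, hK⟩ := h ε hε0 hε1
  refine ⟨max K 1, fun k hk n G h1 h2 hn => ?_⟩
  have hkK : K ≤ k := le_trans (le_max_left _ _) hk
  have hk0 : (0 : ℝ) < k := by
    have : 1 ≤ k := le_trans (le_max_right _ _) hk
    exact_mod_cast this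
  have hn0 : (0 : ℝ) < n := lt_of_lt_of_le (Real.exp_pos _) hn
  have hn1 : 1 ≤ n := by
    have : 0 < n := by exact_mod_cast hn0
    omega
  by_contra hcon
  push Not at hcon
  have hvc : VCle G ⌊ε * (k : ℝ)⌋₊ := by
    intro S hS
    have h3 := hcon S hS
    have h4 : (S.card : ℝ) ≤ ε * k := h3.le
    exact Nat.le_floor h4
  have h5 := hK k hkK n G hn1 h1 h2 hvc
  have h6 : θ * k ≤ Real.log n := (Real.le_log_iff_exp_le hn0).2 hn
  have h7 : θ ≤ Real.log n / k := by
    rw [le_div_iff₀ hk0]; exact h6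
  linarith

/-- A shattered set `S` has at most `log₂ n` elements. -/
theorem two_pow_le {n : ℕ} {G : SimpleGraph (Fin n)} {S : Finset (Fin n)} (h : Shat G S) :
    2 ^ S.card ≤ n := by
  classical
  have h' : ∀ T : {T // T ∈ S.powerset}, ∃ v : Fin n, ∀ x ∈ S, (G.Adj v x ↔ x ∈ T.1) :=
    fun T => h T.1 (mem_powerset.1 T.2)
  choose f hf using h'
  have hinj : Function.Injective f := by
    intro T T' hTT
    apply Subtype.ext
    ext x
    constructor
    · intro hx
      have hxS : x ∈ S := mem_powerset.1 T.2 hx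
      rw [← hf T' x hxS, ← hTT, hf T x hxS]
      exact hx
    · intro hx
      have hxS : x ∈ S := mem_powerset.1 T'.2 hx
      rw [← hf T x hxS, hTT, hf T' x hxS]
      exact hx
  have h2 := Fintype.card_le_of_injective f hinj
  rw [Fintype.card_coe, card_powerset, Fintype.card_fin] at h2
  exact h2

open Pool.Agent.H818R2.Ram in
/-- The extremal colourings, those with `R(k,k) - 1` vertices, have VC-dimension of order `k`. -/
theorem extremal (hUP : S_UP) : ∃ c : ℝ, 0 < c ∧ ∃ K : ℕ, ∀ k : ℕ, K ≤ k →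
    ∀ (n : ℕ) (G : SimpleGraph (Fin n)), n + 1 = R k k → G.CliqueFree k → Gᶜ.CliqueFree k →
      (∃ S : Finset (Fin n), Shat G S ∧ c * k ≤ S.card) ∧
      (∀ S : Finset (Fin n), Shat G S → S.card ≤ 2 * k) := by
  obtain ⟨c, hc, h⟩ := large_vc hUP
  obtain ⟨K, hK⟩ := h (1 / 4) (by norm_num) (by norm_num)
  refine ⟨c * (1 / 4) / Real.log (2 / (1 / 4)), ?_, max K 8, ?_⟩
  · have : 0 < Real.log (2 / (1 / 4)) := Real.log_pos (by norm_num)
    positivity
  intro k hk n G hn h1 h2
  have hkK : K ≤ k := le_trans (le_max_left _ _) hk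
  have hk8 : 8 ≤ k := le_trans (le_max_right _ _) hk
  have hE := erdos_lower (k := k) (by omega)
  rw [← hn] at hE
  have hn1 : 1 ≤ n := by
    by_contra hcon
    have : n = 0 := by omega
    subst this
    have : 2 ^ 8 ≤ 2 ^ k := Nat.pow_le_pow_right (by norm_num) hk8
    norm_num at hE
  constructor
  · apply hK k hkK n G h1 h2
    have hn0 : (0 : ℝ) < n := by exact_mod_cast hn1
    rw [← Real.le_log_iff_exp_le hn0]
    have hE' : (2 : ℝ) ^ k ≤ (2 * n) ^ 2 := by
      have h3 : (2 : ℝ) ^ k < ((n : ℝ) + 1) ^ 2 := by exact_mod_cast hE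
      have h4 : (1 : ℝ) ≤ n := by exact_mod_cast hn1
      nlinarith
    have h5 := Real.log_le_log (by positivity) hE'
    rw [Real.log_pow, Real.log_pow, Real.log_mul (by norm_num) hn0.ne'] at h5
    push_cast at h5
    have h6 := Real.log_two_gt_d9
    have h7 := Real.log_two_lt_d9
    have h8 : (8 : ℝ) ≤ k := by exact_mod_cast hk8
    nlinarith
  · intro S hS
    have h3 := two_pow_le hS
    have h4 : R k k ≤ 4 ^ k := by
      obtain ⟨a, rfl⟩ : ∃ a, k = a + 1 := ⟨k - 1, by omega⟩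
      calc R (a + 1) (a + 1) ≤ (a + a).choose a := R_succ_le_choose a a
        _ ≤ 2 ^ (a + a) := Nat.choose_le_two_pow _ _
        _ = 4 ^ a := by rw [← two_mul, pow_mul]; norm_num
        _ ≤ 4 ^ (a + 1) := Nat.pow_le_pow_right (by norm_num) (by omega)
    have h5 : 2 ^ S.card ≤ 2 ^ (2 * k) := by
      calc 2 ^ S.card ≤ n := h3
        _ ≤ R k k := by omega
        _ ≤ 4 ^ k := h4
        _ = 2 ^ (2 * k) := by rw [pow_mul]; norm_num
    exact (Nat.pow_le_pow_iff_right (by norm_num)).1 h5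

end Pool.Agent.TH458.VC
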