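import Mathlib

set_option autoImplicit false

/-!
# Diagonal Ramsey numbers of colourings of bounded VC-dimension: definitions and statements of the parts
-/

namespace Pool.Agent.TH458.VC

open Finset

/-- The set `S` of vertices is shattered by the neighbourhoods of the vertices of `G`. -/
def Shat {V : Type} (G : SimpleGraph V) (S : Finset V) : Prop :=
  ∀ T ⊆ S, ∃ v, ∀ x ∈ S, (G.Adj v x ↔ x ∈ T)

/-- The VC-dimension of `G` is at most `d`. -/
def VCle {V : Type} (G : SimpleGraph V) (d : ℕ) : Prop :=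
  ∀ S : Finset V, Shat G S → S.card ≤ d

/-- The number of subsets with at most `d` elements of a set with `m` elements. -/
def Phi (m d : ℕ) : ℕ := ∑ i ∈ range (d + 1), m.choose i

/-- The finite upper bound. -/
def S_FIN : Prop :=
  ∀ (n k d a T : ℕ) (G : SimpleGraph (Fin n)), 1 ≤ d → 1 ≤ a → 1 ≤ T → 2 * k ≤ T * a →
    G.CliqueFree k → Gᶜ.CliqueFree k → VCle G d →
    n < 4 ^ (2 * T) * (2 * (11264 * T ^ 2) ^ d * Phi (T * a) d * (a + k).choose a)

/-- Passage from the finite upper bound to the asymptotic one (only real numbers). -/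
def S_ASY : Prop :=
  ∃ C : ℝ, 0 < C ∧ ∀ n k d : ℕ, 1 ≤ n → 2 ≤ k → 1 ≤ d → n < 4 ^ k →
    (∀ a T : ℕ, 1 ≤ a → 1 ≤ T → 2 * k ≤ T * a →
      n < 4 ^ (2 * T) * (2 * (11264 * T ^ 2) ^ d * Phi (T * a) d * (a + k).choose a)) →
    Real.log n ≤ C * (d * Real.log (2 + (k : ℝ) / d) + Real.sqrt (k * Real.log k))

/-- The random construction. -/
def S_LOW : Prop :=
  ∀ d k q : ℕ, 10 ≤ d → 256 ≤ q → d * q ^ 2 ≤ k →
    ∃ (n : ℕ) (G : SimpleGraph (Fin n)), G.CliqueFree k ∧ Gᶜ.CliqueFree k ∧ VCle G d ∧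
      q ^ (d / 4) ≤ n

end Pool.Agent.TH458.VC
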