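import Pool.Agent.TH458.VC.Pick
import Pool.Agent.H599R2.Ram.ES

set_option autoImplicit false

/-! # The finite upper bound -/

namespace Pool.Agent.TH458.VC

open Finset SimpleGraph

theorem ramsey {V : Type} (G : SimpleGraph V) (c : Bool) (k a : ℕ) (hG : G.CliqueFree k)
    (hG' : Gᶜ.CliqueFree k) (Z : Finset V) (hZ : (a + k).choose a ≤ Z.card) :
    ∃ I ⊆ Z, I.card = a ∧ ∀ x ∈ I, ∀ y ∈ I, x ≠ y → ¬ Wr G c x y := by
  have sub : ∀ (S : Finset V), a ≤ S.card → ∃ I ⊆ S, I.card = a := fun S h =>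
    Finset.exists_subset_card_eq h
  have noC : ∀ S : Finset V, k ≤ S.card → ¬ G.IsClique (S : Set V) := by
    intro S hS hc
    obtain ⟨J, hJ, hJk⟩ := Finset.exists_subset_card_eq hS
    exact hG J ⟨hc.subset (by exact_mod_cast hJ), hJk⟩
  have noI : ∀ S : Finset V, k ≤ S.card → ¬ G.IsIndepSet (S : Set V) := by
    intro S hS hc
    obtain ⟨J, hJ, hJk⟩ := Finset.exists_subset_card_eq hS
    refine hG' J ⟨?_, hJk⟩
    intro x hx y hy hxy
    rw [compl_adj]
    exact ⟨hxy, hc (by exact_mod_cast hJ hx) (by exact_mod_cast hJ hy) hxy⟩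
  cases c with
  | true =>
    rcases Pool.Agent.H599R2.Ram.es G _ a k rfl Z hZ with ⟨S, hS, hc⟩ | ⟨S, hS, hc⟩
    · obtain ⟨I, hI, hIa⟩ := sub S (by rw [hc.card_eq]; omega)
      refine ⟨I, hI.trans hS, hIa, fun x hx y hy hxy => ?_⟩
      have := hc.isClique (by exact_mod_cast hI hx) (by exact_mod_cast hI hy) hxy
      simp [Wr, this]
    · exact absurd hc.isIndepSet (noI S (by rw [hc.card_eq]; omega))
  | false =>
    have hsy : (k + a).choose k = (a + k).choose a := by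
      rw [add_comm k a, Nat.choose_symm_add]
    rcases Pool.Agent.H599R2.Ram.es G _ k a rfl Z (by rw [hsy]; exact hZ) with
      ⟨S, hS, hc⟩ | ⟨S, hS, hc⟩
    · exact absurd hc.isClique (noC S (by rw [hc.card_eq]; omega))
    · obtain ⟨I, hI, hIa⟩ := sub S (by rw [hc.card_eq]; omega)
      refine ⟨I, hI.trans hS, hIa, fun x hx y hy hxy => ?_⟩
      have := hc.isIndepSet (by exact_mod_cast hI hx) (by exact_mod_cast hI hy) hxy
      simpa [Wr] using this

theorem t_FIN : S_FIN := by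
  classical
  intro n k d a T G hd1 ha hT hk hG hG' hd
  by_contra hn
  push Not at hn
  set Rm := (a + k).choose a with hRm
  have hRm1 : 1 ≤ Rm := Nat.choose_pos (Nat.le_add_right a k)
  have hPhi := Phi_pos (T * a) d
  set q := 32 * T ^ 2 with hq
  have hT2 : 1 ≤ T ^ 2 := Nat.one_le_pow _ _ hT
  have hq352 : 352 * q = 11264 * T ^ 2 := by rw [hq]; ring
  set M := 2 * Phi (T * a) d * Rm with hM
  have hM2 : 2 ≤ M := by
    rw [hM]
    nlinarith [Nat.mul_le_mul hPhi hRm1]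
  set m0 := (352 * q) ^ d * M with hm0
  have hn2 : 4 ^ (2 * T) * m0 ≤ n := by
    rw [hm0, hM, hq352]
    calc 4 ^ (2 * T) * ((11264 * T ^ 2) ^ d * (2 * Phi (T * a) d * Rm))
        = 4 ^ (2 * T) * (2 * (11264 * T ^ 2) ^ d * Phi (T * a) d * Rm) := by ring
      _ ≤ n := hn
  have hm0q : 16 * q ≤ m0 := by
    have h1 : 352 * q ≤ (352 * q) ^ d := by
      calc 352 * q = (352 * q) ^ 1 := (pow_one _).symm
        _ ≤ (352 * q) ^ d := Nat.pow_le_pow_right (by omega) hd1
    have h2 : (352 * q) ^ d ≤ m0 := by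
      rw [hm0]
      exact Nat.le_mul_of_pos_right _ (by omega)
    omega
  obtain ⟨W, c, hW, hWc⟩ := seq G hd1 hd q (by omega) m0 hm0q (2 * T) univ
    (by rw [card_univ, Fintype.card_fin]; exact hn2)
  obtain ⟨c0, σ, hσ, hσ2⟩ := pigeon c T
  have hKpos : 0 < (352 * q) ^ d := pow_pos (by omega) _
  obtain ⟨J, hJ, hJc⟩ := pick G hd c0 T a Rm hT ha (fun i => W (σ i))
    (by
      intro i hi
      have h1 := (hW (σ i) (hσ i hi).1).2
      rw [hm0] at h1
      exact Nat.le_of_mul_le_mul_left h1 hKpos)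
    (fun i j hij hj => (hWc _ _ (hσ2 i j hij hj) (hσ j hj).1).1)
    (by
      intro i j hij hj y hy
      have h1 := (hWc _ _ (hσ2 i j hij hj) (hσ j hj).1).2 y hy
      rw [(hσ i (by omega)).2] at h1
      exact h1)
    (fun Z hZ => ramsey G c0 k a hG hG' Z hZ)
  obtain ⟨J', hJ', hJ'k⟩ := Finset.exists_subset_card_eq (show k ≤ J.card by omega)
  cases c0 with
  | true =>
    refine hG J' ⟨?_, hJ'k⟩
    intro x hx y hy hxy
    have := hJc x (hJ' hx) y (hJ' hy) hxy
    simpa [Wr] using this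
  | false =>
    refine hG' J' ⟨?_, hJ'k⟩
    intro x hx y hy hxy
    have := hJc x (hJ' hx) y (hJ' hy) hxy
    rw [compl_adj]
    refine ⟨hxy, ?_⟩
    simpa [Wr] using this

end Pool.Agent.TH458.VC
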