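import Pool.Agent.W320.BV.H3
import Pool.Agent.W320.BV.TRV
import Pool.Agent.W485.BV.UD
import Pool.Agent.W485.BV.H1
import Pool.Agent.W485.BV.H2
import Pool.Agent.W240.BVBIN
import Pool.Agent.TH458.VC.Defs

set_option autoImplicit false

/-! # Clusters of vertices with similar neighbourhoods, by the packing lemma of Haussler -/

namespace Pool.Agent.TH458.VC

open Finset Pool.Agent.W842.BV

theorem haus : S_HAUS :=
  Pool.Agent.W320.BV.t_H3 Pool.Agent.W320.BV.t_TRV Pool.Agent.W485.BV.t_UD
    Pool.Agent.W240.BV.t_BIN Pool.Agent.W485.BV.t_H1 Pool.Agent.W485.BV.t_H2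

open scoped Classical in
/-- the points of `A` where the neighbourhoods of `v` and `w` differ -/
noncomputable def diffOn {V : Type} (G : SimpleGraph V) (A : Finset V) (v w : V) : Finset V :=
  A.filter (fun x => ¬ (G.Adj v x ↔ G.Adj w x))

open scoped Classical in
theorem cluster {V : Type} (G : SimpleGraph V) {d : ℕ} (hd : VCle G d)
    (A : Finset V) (r : ℕ) (hr : 1 ≤ r) (hrA : r ≤ A.card) :
    ∃ v ∈ A, ∃ W ⊆ A, (A.card : ℝ) ≤ (22 * A.card / r) ^ d * W.card ∧
      ∀ w ∈ W, (diffOn G A v w).card < r := by
  let P : Finset V → Prop := fun F => ∀ f ∈ F, ∀ g ∈ F, f ≠ g → r ≤ (diffOn G A f g).card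
  have hsymm : ∀ f g, (diffOn G A f g).card = (diffOn G A g f).card := by
    intro f g
    congr 1
    unfold diffOn
    apply Finset.filter_congr
    intro x _
    exact not_congr Iff.comm
  obtain ⟨F, hF, hmax⟩ := Finset.exists_max_image (A.powerset.filter P) Finset.card
    ⟨∅, by simp [P]⟩
  rw [mem_filter, mem_powerset] at hF
  obtain ⟨hFA, hFP⟩ := hF
  have hcov : ∀ a ∈ A, ∃ f ∈ F, (diffOn G A f a).card < r := by
    intro a ha
    by_cases haF : a ∈ F
    · refine ⟨a, haF, ?_⟩
      have : diffOn G A a a = ∅ := by
        unfold diffOn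
        rw [Finset.filter_eq_empty_iff]
        intro x _
        simp
      rw [this, card_empty]
      omega
    · by_contra hcon
      push Not at hcon
      have hins : insert a F ∈ A.powerset.filter P := by
        rw [mem_filter, mem_powerset]
        refine ⟨insert_subset ha hFA, ?_⟩
        intro f hf g hg hfg
        rw [mem_insert] at hf hg
        rcases hf with rfl | hf <;> rcases hg with rfl | hg
        · exact absurd rfl hfg
        · rw [hsymm]; exact hcon g hg
        · exact hcon f hf
        · exact hFP f hf g hg hfg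
      have := hmax _ hins
      rw [card_insert_of_notMem haF] at this
      omega
  -- the bound for the number of elements of `F`
  have hFcard : (F.card : ℝ) ≤ (22 * A.card / r) ^ d := by
    let tr : V → Finset {x // x ∈ A} := fun f => univ.filter (fun x => G.Adj f x)
    have hsd : ∀ f g, (symmDiff (tr f) (tr g)).card = (diffOn G A f g).card := by
      intro f g
      have h1 : ((symmDiff (tr f) (tr g)).map (Function.Embedding.subtype (· ∈ A))) =
          diffOn G A f g := by
        ext x
        simp only [mem_map, mem_symmDiff, tr, mem_filter, mem_univ, true_and, diffOn,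
          Function.Embedding.coe_subtype, Subtype.exists, exists_and_right, exists_eq_right]
        constructor
        · rintro ⟨hx, h⟩
          exact ⟨hx, by tauto⟩
        · rintro ⟨hx, h⟩
          exact ⟨hx, by tauto⟩
      rw [← h1, card_map]
    have hinj : Set.InjOn tr F := by
      intro f hf g hg hfg
      by_contra hne
      have h1 := hFP f hf g hg hne
      rw [← hsd, hfg, symmDiff_self] at h1
      simp at h1
      omega
    have h2 := haus {x // x ∈ A} (F.image tr) r hr (by
      intro a ha b hb hab
      rw [mem_image] at ha hb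
      obtain ⟨f, hf, rfl⟩ := ha
      obtain ⟨g, hg, rfl⟩ := hb
      rw [hsd]
      exact hFP f hf g hg (fun h => hab (by rw [h]))) (by simpa using hrA)
    rw [card_image_of_injOn hinj] at h2
    have hvc : (F.image tr).vcDim ≤ d := by
      unfold Finset.vcDim
      apply Finset.sup_le
      intro s hs
      rw [mem_shatterer] at hs
      have h3 := hd (s.map (Function.Embedding.subtype (· ∈ A))) (by
        intro T hT
        have h4 : (s.filter (fun x : {x // x ∈ A} => x.1 ∈ T)) ⊆ s := filter_subset _ _
        obtain ⟨u, hu, hsu⟩ := hs h4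
        rw [mem_image] at hu
        obtain ⟨f, hf, rfl⟩ := hu
        refine ⟨f, ?_⟩
        intro x hx
        rw [mem_map] at hx
        obtain ⟨y, hy, rfl⟩ := hx
        have h5 : y ∈ s ∩ tr f ↔ y ∈ s.filter (fun x : {x // x ∈ A} => x.1 ∈ T) := by rw [hsu]
        simp only [mem_inter, hy, true_and, tr, mem_filter, mem_univ] at h5
        exact h5)
      rwa [card_map] at h3
    have hr0 : (0 : ℝ) < r := by exact_mod_cast hr
    have hbase : (1 : ℝ) ≤ 22 * A.card / r := by
      rw [le_div_iff₀ hr0]
      have : (r : ℝ) ≤ A.card := by exact_mod_cast hrA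
      linarith
    refine h2.trans ?_
    rw [Fintype.card_coe]
    exact pow_le_pow_right₀ hbase hvc
  -- pigeonhole
  have hAne : A.Nonempty := by
    rw [← card_pos]; omega
  have hFne : F.Nonempty := by
    obtain ⟨a, ha⟩ := hAne
    obtain ⟨f, hf, -⟩ := hcov a ha
    exact ⟨f, hf⟩
  have hsum : A.card ≤ ∑ f ∈ F, (A.filter (fun a => (diffOn G A f a).card < r)).card := by
    refine le_trans (card_le_card ?_) card_biUnion_le
    intro a ha
    rw [mem_biUnion]
    obtain ⟨f, hf, h⟩ := hcov a ha
    exact ⟨f, hf, by rw [mem_filter]; exact ⟨ha, h⟩⟩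
  obtain ⟨f, hf, hfmax⟩ := Finset.exists_max_image F
    (fun f => (A.filter (fun a => (diffOn G A f a).card < r)).card) hFne
  refine ⟨f, hFA hf, A.filter (fun a => (diffOn G A f a).card < r), filter_subset _ _, ?_, ?_⟩
  · have h1 : A.card ≤ F.card * (A.filter (fun a => (diffOn G A f a).card < r)).card := by
      refine hsum.trans ?_
      rw [← smul_eq_mul]
      exact Finset.sum_le_card_nsmul _ _ _ (fun g hg => hfmax g hg)
    have h2 : (A.card : ℝ) ≤
        F.card * ((A.filter (fun a => (diffOn G A f a).card < r)).card : ℝ) := by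
      exact_mod_cast h1
    refine h2.trans ?_
    exact mul_le_mul_of_nonneg_right hFcard (Nat.cast_nonneg _)
  · intro w hw
    rw [mem_filter] at hw
    exact hw.2

end Pool.Agent.TH458.VC
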