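import Pool.Agent.TH458.VC.Step

set_option autoImplicit false

/-! # The sequence of clusters and the choice of the homogeneous blocks -/

namespace Pool.Agent.TH458.VC

open Finset

open scoped Classical in
theorem seq {V : Type} (G : SimpleGraph V) {d : ℕ} (hd1 : 1 ≤ d) (hd : VCle G d) (q : ℕ)
    (hq : 1 ≤ q) (m0 : ℕ) (hm0 : 16 * q ≤ m0) :
    ∀ (t : ℕ) (A : Finset V), 4 ^ t * m0 ≤ A.card →
      ∃ (W : ℕ → Finset V) (c : ℕ → Bool), (∀ i < t, W i ⊆ A ∧ m0 ≤ (352 * q) ^ d * (W i).card) ∧
        ∀ i j, i < j → j < t → Disjoint (W i) (W j) ∧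
          ∀ y ∈ W j, q * wr G (c i) y (W i) ≤ (W i).card := by
  intro t
  induction t with
  | zero =>
    intro A _
    exact ⟨fun _ => ∅, fun _ => true, fun i hi => absurd hi (by omega), fun i j _ hj => absurd hj (by omega)⟩
  | succ t ih =>
    intro A hA
    have h4 : 1 ≤ 4 ^ t := Nat.one_le_pow _ _ (by norm_num)
    have hA2 : 4 ^ (t + 1) * m0 = 4 * (4 ^ t * m0) := by ring
    have hm0A : m0 ≤ A.card := by
      have : m0 ≤ 4 ^ t * m0 := Nat.le_mul_of_pos_left _ h4
      omega
    obtain ⟨c0, W0, hW0, A', hA', hdis, h1, h2, h3⟩ := step G hd1 hd q hq A (hm0.trans hm0A)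
    obtain ⟨W, c, hW, hWc⟩ := ih A' (by omega)
    refine ⟨fun i => Nat.casesOn i W0 W, fun i => Nat.casesOn i c0 c, ?_, ?_⟩
    · intro i hi
      cases i with
      | zero => exact ⟨hW0, hm0A.trans h2⟩
      | succ i => exact ⟨(hW i (by omega)).1.trans hA', (hW i (by omega)).2⟩
    · intro i j hij hj
      cases j with
      | zero => omega
      | succ j =>
        have hsub := (hW j (by omega)).1
        cases i with
        | zero =>
          exact ⟨Finset.disjoint_of_subset_right hsub hdis, fun y hy => h3 y (hsub hy)⟩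
        | succ i => exact hWc i j (by omega) (by omega)

/-- Half of the colours agree. -/
theorem pigeon (c : ℕ → Bool) (T : ℕ) : ∃ (c0 : Bool) (σ : ℕ → ℕ),
    (∀ i < T, σ i < 2 * T ∧ c (σ i) = c0) ∧ ∀ i j, i < j → j < T → σ i < σ j := by
  have hsplit : ((range (2 * T)).filter (fun i => c i = true)).card +
      ((range (2 * T)).filter (fun i => ¬ c i = true)).card = (range (2 * T)).card :=
    Finset.card_filter_add_card_filter_not _
  rw [card_range] at hsplit
  obtain ⟨c0, hc0⟩ : ∃ c0 : Bool, T ≤ ((range (2 * T)).filter (fun i => c i = c0)).card := by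
    rcases le_or_gt T ((range (2 * T)).filter (fun i => c i = true)).card with h | h
    · exact ⟨true, h⟩
    · refine ⟨false, ?_⟩
      have : (range (2 * T)).filter (fun i => c i = false) =
          (range (2 * T)).filter (fun i => ¬ c i = true) := by
        apply Finset.filter_congr
        intro x _
        simp
      rw [this]; omega
  obtain ⟨S, hS, hSc⟩ := Finset.exists_subset_card_eq hc0
  let f := S.orderEmbOfFin hSc
  refine ⟨c0, fun i => if h : i < T then f ⟨i, h⟩ else 0, ?_, ?_⟩
  · intro i hi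
    have hmem : f ⟨i, hi⟩ ∈ S := Finset.orderEmbOfFin_mem _ _ _
    have := hS hmem
    rw [mem_filter, mem_range] at this
    simp only [hi, dite_true]
    exact this
  · intro i j hij hj
    have hi : i < T := by omega
    simp only [hi, hj, dite_true]
    exact f.strictMono (by simpa using hij)

theorem Phi_mono {m m' : ℕ} (h : m ≤ m') (d : ℕ) : Phi m d ≤ Phi m' d := by
  unfold Phi
  exact Finset.sum_le_sum fun i _ => Nat.choose_le_choose i h

theorem Phi_pos (m d : ℕ) : 1 ≤ Phi m d := by
  unfold Phi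
  calc 1 = m.choose 0 := by simp
    _ ≤ ∑ i ∈ range (d + 1), m.choose i :=
      Finset.single_le_sum (f := fun i => m.choose i) (fun _ _ => Nat.zero_le _) (by simp)

open scoped Classical in
theorem trace_adj {V : Type} (G : SimpleGraph V) {d : ℕ} (hd : VCle G d) (A Y : Finset V) :
    (Y.image (fun y => A.filter (fun z => G.Adj z y))).card ≤ Phi A.card d := by
  set F := Y.image (fun y => A.filter (fun z => G.Adj z y)) with hF
  refine F.card_le_card_shatterer.trans ?_
  have hsub : F.shatterer ⊆ (range (d + 1)).biUnion (fun i => A.powersetCard i) := by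
    intro s hs
    rw [mem_shatterer] at hs
    have hsA : s ⊆ A := by
      obtain ⟨u, hu, hsu⟩ := hs (subset_refl s)
      rw [hF, mem_image] at hu
      obtain ⟨y, _, rfl⟩ := hu
      intro x hx
      rw [← hsu, mem_inter, mem_filter] at hx
      exact hx.2.1
    have hsd : s.card ≤ d := by
      apply hd
      intro T hT
      obtain ⟨u, hu, hsu⟩ := hs hT
      rw [hF, mem_image] at hu
      obtain ⟨y, _, rfl⟩ := hu
      refine ⟨y, fun x hx => ?_⟩
      rw [← hsu, mem_inter, mem_filter, G.adj_comm]
      exact ⟨fun h => ⟨hx, hsA hx, h⟩, fun h => h.2.2⟩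
    rw [mem_biUnion]
    exact ⟨s.card, by rw [mem_range]; omega, by rw [mem_powersetCard]; exact ⟨hsA, rfl⟩⟩
  refine (card_le_card hsub).trans (card_biUnion_le.trans ?_)
  unfold Phi
  exact (Finset.sum_congr rfl fun i _ => card_powersetCard i A).le

open scoped Classical in
theorem trace_wr {V : Type} (G : SimpleGraph V) {d : ℕ} (hd : VCle G d) (c : Bool)
    (A Y : Finset V) :
    (Y.image (fun y => A.filter (fun z => Wr G c z y))).card ≤ Phi A.card d := by
  refine le_trans ?_ (trace_adj G hd A Y)
  cases c with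
  | false =>
    have : (fun y => A.filter (fun z => Wr G false z y)) = fun y => A.filter (fun z => G.Adj z y) := by
      funext y
      apply Finset.filter_congr
      intro x _
      simp [Wr]
    rw [this]
  | true =>
    have : (Y.image (fun y => A.filter (fun z => Wr G true z y))) =
        (Y.image (fun y => A.filter (fun z => G.Adj z y))).image (fun u => A \ u) := by
      rw [image_image]
      apply Finset.image_congr
      intro y _
      simp only [Function.comp]
      ext x
      simp only [mem_filter, mem_sdiff, Wr]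
      tauto
    rw [this]
    exact card_image_le

open scoped Classical in
theorem pick_step {V : Type} (G : SimpleGraph V) {d : ℕ} (hd : VCle G d) (c : Bool)
    (T a Rm : ℕ) (hT : 1 ≤ T) (ha : 1 ≤ a) (U : ℕ → Finset V)
    (hU : ∀ i < T, 2 * Phi (T * a) d * Rm ≤ (U i).card)
    (hwr : ∀ i j, i < j → j < T → ∀ y ∈ U j, 32 * T ^ 2 * wr G c y (U i) ≤ (U i).card)
    (hR : ∀ Z : Finset V, Rm ≤ Z.card →
      ∃ I ⊆ Z, I.card = a ∧ ∀ x ∈ I, ∀ y ∈ I, x ≠ y → ¬ Wr G c x y)
    (j : ℕ) (hj : j < T) (A : Finset V) (hAc : A.card ≤ j * a)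
    (hA : ∀ x ∈ A, 8 * T * wr G c x (U j) ≤ (U j).card) :
    ∃ I ⊆ U j, ∃ B : Finset V, I.card = a ∧ (∀ x ∈ I, ∀ y ∈ I, x ≠ y → ¬ Wr G c x y) ∧
      (∀ x ∈ I, ∀ l, j < l → l < T → 8 * T * wr G c x (U l) ≤ (U l).card) ∧
      2 * T * B.card ≤ j * a ∧ ∀ y ∈ I, ∀ z ∈ A, Wr G c z y → z ∈ B := by
  have hRm : 1 ≤ Rm := by
    by_contra h
    obtain ⟨I, hI, hIc, _⟩ := hR ∅ (by simp; omega)
    rw [subset_empty.1 hI, card_empty] at hIc
    omega
  set bad : ℕ → Finset V := fun l => (U j).filter (fun x => (U l).card < 8 * T * wr G c x (U l))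
    with hbad
  have hbadc : ∀ l ∈ Finset.Ioo j T, 4 * T * (bad l).card ≤ (U j).card := by
    intro l hl
    rw [mem_Ioo] at hl
    rcases Nat.eq_zero_or_pos (U l).card with h0 | h0
    · have : bad l = ∅ := by
        rw [hbad, Finset.filter_eq_empty_iff]
        intro x _
        rw [card_eq_zero] at h0
        rw [h0]
        simp [wr]
      rw [this]; simp
    · have h1 := markov (fun x => wr G c x (U l)) (U j) (8 * T) (U l).card
      have h2 : ∑ x ∈ U j, wr G c x (U l) = ∑ y ∈ U l, wr G c y (U j) := sum_wr _ _ _ _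
      have h3 : ∑ y ∈ U l, 32 * T ^ 2 * wr G c y (U j) ≤ (U l).card * (U j).card := by
        rw [← smul_eq_mul]
        exact Finset.sum_le_card_nsmul _ _ _ (fun y hy => hwr j l hl.1 hl.2 y hy)
      rw [← mul_sum] at h3
      rw [h2] at h1
      have h4 : (4 * T * (bad l).card) * (U l).card ≤ (U j).card * (U l).card := by
        calc (4 * T * (bad l).card) * (U l).card = 4 * T * ((bad l).card * (U l).card) := by ring
          _ ≤ 4 * T * (8 * T * ∑ y ∈ U l, wr G c y (U j)) := Nat.mul_le_mul_left _ h1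
          _ = 32 * T ^ 2 * ∑ y ∈ U l, wr G c y (U j) := by ring
          _ ≤ (U l).card * (U j).card := h3
          _ = (U j).card * (U l).card := by ring
      exact Nat.le_of_mul_le_mul_right h4 h0
  set bad' : Finset V := (U j).filter (fun y => A.card < 2 * T * wr G c y A) with hbad'
  have hbad'c : 4 * bad'.card ≤ (U j).card := by
    rcases Nat.eq_zero_or_pos A.card with h0 | h0
    · have : bad' = ∅ := by
        rw [hbad', Finset.filter_eq_empty_iff]
        intro x _
        rw [card_eq_zero] at h0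
        rw [h0]
        simp [wr]
      rw [this]; simp
    · have h1 := markov (fun y => wr G c y A) (U j) (2 * T) A.card
      rw [sum_wr] at h1
      have h3 : ∑ x ∈ A, 8 * T * wr G c x (U j) ≤ A.card * (U j).card := by
        rw [← smul_eq_mul]
        exact Finset.sum_le_card_nsmul _ _ _ (fun x hx => hA x hx)
      rw [← mul_sum] at h3
      have h4 : (4 * bad'.card) * A.card ≤ (U j).card * A.card := by
        calc (4 * bad'.card) * A.card = 4 * (bad'.card * A.card) := by ring
          _ ≤ 4 * (2 * T * ∑ x ∈ A, wr G c x (U j)) := Nat.mul_le_mul_left _ h1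
          _ = 8 * T * ∑ x ∈ A, wr G c x (U j) := by ring
          _ ≤ A.card * (U j).card := h3
          _ = (U j).card * A.card := by ring
      exact Nat.le_of_mul_le_mul_right h4 h0
  set Bd := (Finset.Ioo j T).biUnion bad with hBd
  have hBdc : 4 * Bd.card ≤ (U j).card := by
    have h1 : Bd.card ≤ ∑ l ∈ Finset.Ioo j T, (bad l).card := card_biUnion_le
    have h2 : ∑ l ∈ Finset.Ioo j T, 4 * T * (bad l).card ≤ T * (U j).card := by
      calc ∑ l ∈ Finset.Ioo j T, 4 * T * (bad l).card ≤ (Finset.Ioo j T).card • (U j).card :=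
            Finset.sum_le_card_nsmul _ _ _ hbadc
        _ ≤ T * (U j).card := by
            rw [smul_eq_mul, Nat.card_Ioo]
            exact Nat.mul_le_mul_right _ (by omega)
    rw [← mul_sum] at h2
    have h3 : T * (4 * Bd.card) ≤ T * (U j).card := by
      calc T * (4 * Bd.card) = 4 * T * Bd.card := by ring
        _ ≤ 4 * T * ∑ l ∈ Finset.Ioo j T, (bad l).card := Nat.mul_le_mul_left _ h1
        _ ≤ T * (U j).card := h2
    exact Nat.le_of_mul_le_mul_left h3 (by omega)
  set Y := (U j \ Bd) \ bad' with hY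
  have hYc : Phi (T * a) d * Rm ≤ Y.card := by
    have h1 := Finset.le_card_sdiff Bd (U j)
    have h2 := Finset.le_card_sdiff bad' (U j \ Bd)
    have h3 := hU j hj
    rw [mul_assoc] at h3
    rw [← hY] at h2
    omega
  have hYsub : Y ⊆ U j := sdiff_subset.trans sdiff_subset
  set τ : V → Finset V := fun y => A.filter (fun z => Wr G c z y) with hτ
  have htr : (Y.image τ).card ≤ Phi (T * a) d := by
    refine (trace_wr G hd c A Y).trans (Phi_mono ?_ d)
    exact hAc.trans (Nat.mul_le_mul_right _ hj.le)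
  have hYne : Y.Nonempty := by
    rw [← card_pos]
    have := Nat.mul_le_mul (Phi_pos (T * a) d) hRm
    omega
  obtain ⟨B, hB, hBc⟩ := Finset.exists_le_card_fiber_of_mul_le_card_of_maps_to
    (s := Y) (t := Y.image τ) (f := τ) (n := Rm) (fun y hy => mem_image_of_mem _ hy)
    (hYne.image _) ((Nat.mul_le_mul_right _ htr).trans hYc)
  obtain ⟨I, hI, hIa, hIc⟩ := hR _ hBc
  have hIY : ∀ y ∈ I, y ∈ Y ∧ τ y = B := fun y hy => by
    have := hI hy
    rwa [mem_filter] at this
  refine ⟨I, fun y hy => hYsub (hIY y hy).1, B, hIa, hIc, ?_, ?_, ?_⟩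
  · intro x hx l hl1 hl2
    have h1 := (hIY x hx).1
    rw [hY, mem_sdiff, mem_sdiff] at h1
    by_contra hcon
    push Not at hcon
    apply h1.1.2
    rw [hBd, mem_biUnion]
    exact ⟨l, by rw [mem_Ioo]; exact ⟨hl1, hl2⟩, by rw [hbad, mem_filter]; exact ⟨h1.1.1, hcon⟩⟩
  · obtain ⟨y0, hy0⟩ : I.Nonempty := by rw [← card_pos]; omega
    have h1 := hIY y0 hy0
    have h2 := h1.1
    rw [hY, mem_sdiff, mem_sdiff] at h2
    have h3 : 2 * T * wr G c y0 A ≤ A.card := by
      by_contra hcon
      push Not at hcon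
      apply h2.2
      rw [hbad', mem_filter]
      exact ⟨h2.1.1, hcon⟩
    have h4 : B.card = wr G c y0 A := by
      rw [← h1.2, hτ]
      unfold wr
      congr 1
      apply Finset.filter_congr
      intro z _
      exact Wr.comm
    rw [h4]
    exact h3.trans hAc
  · intro y hy z hz hzy
    rw [← (hIY y hy).2, hτ, mem_filter]
    exact ⟨hz, hzy⟩

open scoped Classical in
theorem pick {V : Type} (G : SimpleGraph V) {d : ℕ} (hd : VCle G d) (c : Bool)
    (T a Rm : ℕ) (hT : 1 ≤ T) (ha : 1 ≤ a) (U : ℕ → Finset V)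
    (hU : ∀ i < T, 2 * Phi (T * a) d * Rm ≤ (U i).card)
    (hdisj : ∀ i j, i < j → j < T → Disjoint (U i) (U j))
    (hwr : ∀ i j, i < j → j < T → ∀ y ∈ U j, 32 * T ^ 2 * wr G c y (U i) ≤ (U i).card)
    (hR : ∀ Z : Finset V, Rm ≤ Z.card →
      ∃ I ⊆ Z, I.card = a ∧ ∀ x ∈ I, ∀ y ∈ I, x ≠ y → ¬ Wr G c x y) :
    ∃ J : Finset V, T * a ≤ 2 * J.card ∧ ∀ x ∈ J, ∀ y ∈ J, x ≠ y → ¬ Wr G c x y := by
  have key : ∀ j, j ≤ T → ∃ I B : ℕ → Finset V, ∀ i < j, I i ⊆ U i ∧ (I i).card = a ∧
      (∀ x ∈ I i, ∀ y ∈ I i, x ≠ y → ¬ Wr G c x y) ∧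
      (∀ x ∈ I i, ∀ l, i < l → l < T → 8 * T * wr G c x (U l) ≤ (U l).card) ∧
      2 * T * (B i).card ≤ i * a ∧
      ∀ y ∈ I i, ∀ i' < i, ∀ z ∈ I i', Wr G c z y → z ∈ B i := by
    intro j
    induction j with
    | zero =>
      intro _
      exact ⟨fun _ => ∅, fun _ => ∅, fun i hi => absurd hi (by omega)⟩
    | succ j ih =>
      intro hj
      obtain ⟨I, B, h⟩ := ih (by omega)
      obtain ⟨I', hI', B', h1, h2, h3, h4, h5⟩ := pick_step G hd c T a Rm hT ha U hU hwr hR j
        (by omega) ((range j).biUnion I)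
        (by
          refine card_biUnion_le.trans ?_
          calc ∑ i ∈ range j, (I i).card ≤ (range j).card • a :=
                Finset.sum_le_card_nsmul _ _ _ (fun i hi => (h i (mem_range.1 hi)).2.1.le)
            _ = j * a := by rw [card_range, smul_eq_mul])
        (by
          intro x hx
          rw [mem_biUnion] at hx
          obtain ⟨i, hi, hx⟩ := hx
          rw [mem_range] at hi
          exact (h i hi).2.2.2.1 x hx j hi (by omega))
      refine ⟨Function.update I j I', Function.update B j B', ?_⟩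
      intro i hi
      rcases Nat.lt_succ_iff_lt_or_eq.1 hi with hij | rfl
      · have hne : i ≠ j := by omega
        rw [Function.update_of_ne hne, Function.update_of_ne hne]
        obtain ⟨k1, k2, k3, k4, k5, k6⟩ := h i hij
        refine ⟨k1, k2, k3, k4, k5, ?_⟩
        intro y hy i' hi' z hz
        rw [Function.update_of_ne (by omega : i' ≠ j)] at hz
        exact k6 y hy i' hi' z hz
      · rw [Function.update_self, Function.update_self]
        refine ⟨hI', h1, h2, h3, h4, ?_⟩
        intro y hy i' hi' z hz hzy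
        rw [Function.update_of_ne (by omega : i' ≠ i)] at hz
        exact h5 y hy z (by rw [mem_biUnion]; exact ⟨i', by rw [mem_range]; exact hi', hz⟩) hzy
  obtain ⟨I, B, h⟩ := key T le_rfl
  refine ⟨(range T).biUnion I \ (range T).biUnion B, ?_, ?_⟩
  · have h1 : ((range T).biUnion I).card = T * a := by
      rw [card_biUnion]
      · rw [Finset.sum_congr rfl (fun i hi => (h i (mem_range.1 hi)).2.1), sum_const, card_range,
          smul_eq_mul]
      · intro i hi j hj hij
        rw [Finset.coe_range, Set.mem_Iio] at hi hj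
        show Disjoint (I i) (I j)
        have hi' := (h i hi).1
        have hj' := (h j hj).1
        rcases lt_or_gt_of_ne hij with hlt | hlt
        · exact Finset.disjoint_of_subset_left hi'
            (Finset.disjoint_of_subset_right hj' (hdisj i j hlt hj))
        · exact (Finset.disjoint_of_subset_left hj'
            (Finset.disjoint_of_subset_right hi' (hdisj j i hlt hi))).symm
    have h2 : 2 * ((range T).biUnion B).card ≤ T * a := by
      have h3 : ∀ i ∈ range T, 2 * (B i).card ≤ a := by
        intro i hi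
        rw [mem_range] at hi
        have h4 := (h i hi).2.2.2.2.1
        have h5 : i * a ≤ T * a := Nat.mul_le_mul_right _ hi.le
        have h6 : T * (2 * (B i).card) ≤ T * a := by
          calc T * (2 * (B i).card) = 2 * T * (B i).card := by ring
            _ ≤ T * a := h4.trans h5
        exact Nat.le_of_mul_le_mul_left h6 (by omega)
      calc 2 * ((range T).biUnion B).card ≤ 2 * ∑ i ∈ range T, (B i).card :=
            Nat.mul_le_mul_left _ card_biUnion_le
        _ = ∑ i ∈ range T, 2 * (B i).card := by rw [mul_sum]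
        _ ≤ (range T).card • a := Finset.sum_le_card_nsmul _ _ _ h3
        _ = T * a := by rw [card_range, smul_eq_mul]
    have h3 := Finset.le_card_sdiff ((range T).biUnion B) ((range T).biUnion I)
    omega
  · have main : ∀ i < T, ∀ j < T, i < j → ∀ x ∈ I i, x ∉ (range T).biUnion B → ∀ y ∈ I j,
        ¬ Wr G c x y := by
      intro i _ j hj hij x hx hxB y hy hxy
      apply hxB
      rw [mem_biUnion]
      exact ⟨j, by rw [mem_range]; exact hj, (h j hj).2.2.2.2.2 y hy i hij x hx hxy⟩
    intro x hx y hy hxy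
    rw [mem_sdiff, mem_biUnion] at hx hy
    obtain ⟨⟨i, hi, hxi⟩, hxB⟩ := hx
    obtain ⟨⟨j, hj, hyj⟩, hyB⟩ := hy
    rw [mem_range] at hi hj
    rcases lt_trichotomy i j with hij | hij | hij
    · exact main i hi j hj hij x hxi hxB y hyj
    · subst hij
      exact (h i hi).2.2.1 x hxi y hyj hxy
    · exact fun hW => main j hj i hi hij y hyj hyB x hxi hW.symm

end Pool.Agent.TH458.VC
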