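import Pool.Agent.TH458.VC.Haus

set_option autoImplicit false

/-! # One step: a small cluster which sees a large set in one colour -/

namespace Pool.Agent.TH458.VC

open Finset

/-- the pair `x, y` does not have the colour `c` (colour `true`: adjacent) -/
def Wr {V : Type} (G : SimpleGraph V) (c : Bool) (x y : V) : Prop := ¬ (G.Adj x y ↔ c = true)

theorem Wr.symm {V : Type} {G : SimpleGraph V} {c : Bool} {x y : V} (h : Wr G c x y) :
    Wr G c y x := by
  unfold Wr at *
  rwa [G.adj_comm] at h

theorem Wr.comm {V : Type} {G : SimpleGraph V} {c : Bool} {x y : V} : Wr G c x y ↔ Wr G c y x :=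
  ⟨Wr.symm, Wr.symm⟩

open scoped Classical in
/-- the number of points of `W` to which `x` is joined in the wrong colour -/
noncomputable def wr {V : Type} (G : SimpleGraph V) (c : Bool) (x : V) (W : Finset V) : ℕ :=
  (W.filter (fun w => Wr G c x w)).card

open scoped Classical in
theorem sum_wr {V : Type} (G : SimpleGraph V) (c : Bool) (A B : Finset V) :
    ∑ x ∈ A, wr G c x B = ∑ y ∈ B, wr G c y A := by
  have h := Finset.sum_card_bipartiteAbove_eq_sum_card_bipartiteBelow (s := A) (t := B)
    (fun x y => Wr G c x y)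
  unfold Finset.bipartiteAbove Finset.bipartiteBelow at h
  unfold wr
  rw [h]
  apply Finset.sum_congr rfl
  intro y _
  congr 1
  apply Finset.filter_congr
  intro x _
  exact Wr.comm

/-- Markov: few points have many wrong neighbours. -/
theorem markov {V : Type} (g : V → ℕ) (A : Finset V) (p M : ℕ) [DecidablePred fun x => M < p * g x] :
    (A.filter (fun x => M < p * g x)).card * M ≤ p * ∑ x ∈ A, g x := by
  calc (A.filter (fun x => M < p * g x)).card * M
      = ∑ _x ∈ A.filter (fun x => M < p * g x), M := by rw [sum_const, smul_eq_mul]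
    _ ≤ ∑ x ∈ A.filter (fun x => M < p * g x), p * g x := by
        apply sum_le_sum
        intro x hx
        rw [mem_filter] at hx
        exact hx.2.le
    _ ≤ ∑ x ∈ A, p * g x := sum_le_sum_of_subset (filter_subset _ _)
    _ = p * ∑ x ∈ A, g x := by rw [mul_sum]

open scoped Classical in
theorem step {V : Type} (G : SimpleGraph V) {d : ℕ} (hd1 : 1 ≤ d) (hd : VCle G d) (q : ℕ)
    (hq : 1 ≤ q) (A : Finset V) (hA : 16 * q ≤ A.card) :
    ∃ c : Bool, ∃ W ⊆ A, ∃ A' ⊆ A, Disjoint W A' ∧ A.card ≤ 4 * A'.card ∧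
      A.card ≤ (352 * q) ^ d * W.card ∧ ∀ y ∈ A', q * wr G c y W ≤ W.card := by
  set m := A.card with hm
  set r := m / (8 * q) with hr
  have hr2 : 2 ≤ r := by
    rw [hr, Nat.le_div_iff_mul_le (by omega)]; omega
  have hrm : r * (8 * q) ≤ m := Nat.div_mul_le_self _ _
  have hrm2 : m < (r + 1) * (8 * q) := by
    rw [hr]; exact Nat.lt_mul_of_div_lt (Nat.lt_succ_self _) (by omega)
  have hrA : r ≤ m := by nlinarith
  obtain ⟨v, hv, W1, hW1A, hW1, hW1d⟩ := cluster G hd A r (by omega) hrA
  have hqR : (1 : ℝ) ≤ q := by exact_mod_cast hq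
  have hW1' : m ≤ (352 * q) ^ d * W1.card := by
    have h1 : (22 * (m : ℝ) / r) ≤ 352 * q := by
      have hr0 : (0 : ℝ) < r := by exact_mod_cast (by omega : 0 < r)
      rw [div_le_iff₀ hr0]
      have h2 : (m : ℝ) < (r + 1) * (8 * q) := by exact_mod_cast hrm2
      have h3 : (2 : ℝ) ≤ r := by exact_mod_cast hr2
      nlinarith
    have h2 : (m : ℝ) ≤ (352 * q) ^ d * W1.card := by
      refine hW1.trans ?_
      apply mul_le_mul_of_nonneg_right _ (Nat.cast_nonneg _)
      apply pow_le_pow_left₀ _ h1
      positivity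
    exact_mod_cast h2
  -- shrink the cluster
  set K := (352 * q) ^ d with hK
  have hK352 : 352 ≤ K := by
    rw [hK]
    calc 352 ≤ 352 * q := by omega
      _ = (352 * q) ^ 1 := (pow_one _).symm
      _ ≤ (352 * q) ^ d := Nat.pow_le_pow_right (by omega) hd1
  set s := (m + K - 1) / K with hs
  have hsK : m ≤ K * s := by
    have h := Nat.div_add_mod (m + K - 1) K
    have h2 := Nat.mod_lt (m + K - 1) (by omega : 0 < K)
    rw [← hs] at h
    omega
  have hs8 : 8 * s ≤ m := by
    have h1 : s * K ≤ m + K - 1 := Nat.div_mul_le_self _ _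
    by_contra hcon
    push Not at hcon
    have h2 : 8 * (s * K) ≤ 8 * (m + K - 1) := by omega
    have h3 : m * K < 8 * s * K := Nat.mul_lt_mul_of_pos_right hcon (by omega)
    have h4 : 16 ≤ m := by nlinarith
    have h5 : m * K < 8 * m + 8 * K := by
      have e1 : 8 * s * K = 8 * (s * K) := by ring
      omega
    obtain ⟨m', hm'⟩ : ∃ m', m = 16 + m' := ⟨m - 16, by omega⟩
    obtain ⟨K', hK'⟩ : ∃ K', K = 352 + K' := ⟨K - 352, by omega⟩
    rw [hm', hK'] at h5
    have h6 : 0 ≤ m' * K' := Nat.zero_le _
    have e2 : (16 + m') * (352 + K') = 5632 + 16 * K' + 352 * m' + m' * K' := by ring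
    omega
  have hsW1 : s ≤ W1.card := by
    by_contra hcon
    push Not at hcon
    have h1 : W1.card + 1 ≤ s := hcon
    have h2 : s * K ≤ m + K - 1 := Nat.div_mul_le_self _ _
    have h3 : (W1.card + 1) * K ≤ s * K := Nat.mul_le_mul_right _ h1
    have h4 : (W1.card + 1) * K = K * W1.card + K := by ring
    omega
  obtain ⟨W, hWW1, hWs⟩ := Finset.exists_subset_card_eq hsW1
  have hs0 : 0 < s := by
    rcases Nat.eq_zero_or_pos s with h | h
    · rw [h] at hsK; omega
    · exact h
  -- the majority colour
  have hsplit : (A.filter (fun x => G.Adj v x)).card + (A.filter (fun x => ¬ G.Adj v x)).card = m :=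
    Finset.card_filter_add_card_filter_not _
  obtain ⟨c, hc⟩ : ∃ c : Bool, m ≤ 2 * (A.filter (fun x => ¬ Wr G c v x)).card := by
    rcases le_total (A.filter (fun x => ¬ G.Adj v x)).card (A.filter (fun x => G.Adj v x)).card
      with h | h
    · refine ⟨true, ?_⟩
      have : A.filter (fun x => ¬ Wr G true v x) = A.filter (fun x => G.Adj v x) := by
        apply Finset.filter_congr
        intro x _
        simp [Wr]
      rw [this]; omega
    · refine ⟨false, ?_⟩
      have : A.filter (fun x => ¬ Wr G false v x) = A.filter (fun x => ¬ G.Adj v x) := by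
        apply Finset.filter_congr
        intro x _
        simp [Wr]
      rw [this]; omega
  set A2 := (A.filter (fun x => ¬ Wr G c v x)) \ W with hA2
  have hA2c : 3 * m ≤ 8 * A2.card := by
    have h1 : (A.filter (fun x => ¬ Wr G c v x)).card ≤ A2.card + W.card := by
      rw [hA2]
      have := Finset.le_card_sdiff W (A.filter (fun x => ¬ Wr G c v x))
      omega
    rw [hWs] at h1
    omega
  -- few bad points
  have hsum : ∑ x ∈ A2, wr G c x W ≤ W.card * r := by
    rw [sum_wr, ← smul_eq_mul]
    apply Finset.sum_le_card_nsmul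
    intro w hw
    have h1 := (hW1d w (hWW1 hw)).le
    refine le_trans (card_le_card ?_) h1
    intro x hx
    rw [mem_filter] at hx
    have hxA2 := hx.1
    rw [hA2, mem_sdiff, mem_filter] at hxA2
    unfold diffOn
    rw [mem_filter]
    refine ⟨hxA2.1.1, ?_⟩
    have h2 := hxA2.1.2
    have h3 := hx.2
    unfold Wr at h2 h3
    tauto
  have hbad := markov (fun x => wr G c x W) A2 q W.card
  have hbad2 : (A2.filter (fun x => W.card < q * wr G c x W)).card ≤ q * r := by
    have h1 : (A2.filter (fun x => W.card < q * wr G c x W)).card * W.card ≤ (q * r) * W.card := by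
      refine hbad.trans ?_
      calc q * ∑ x ∈ A2, wr G c x W ≤ q * (W.card * r) := Nat.mul_le_mul_left _ hsum
        _ = (q * r) * W.card := by ring
    exact Nat.le_of_mul_le_mul_right h1 (by omega)
  refine ⟨c, W, hWW1.trans hW1A, A2 \ A2.filter (fun x => W.card < q * wr G c x W), ?_, ?_, ?_, ?_, ?_⟩
  · refine (sdiff_subset).trans ?_
    rw [hA2]
    exact (sdiff_subset).trans (filter_subset _ _)
  · rw [Finset.disjoint_left]
    intro x hx hx2
    rw [mem_sdiff, hA2, mem_sdiff] at hx2
    exact hx2.1.2 hx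
  · have h1 := Finset.le_card_sdiff (A2.filter (fun x => W.card < q * wr G c x W)) A2
    have h2 : 8 * (q * r) ≤ m := by
      calc 8 * (q * r) = r * (8 * q) := by ring
        _ ≤ m := hrm
    omega
  · rw [hWs]; exact hsK
  · intro y hy
    rw [mem_sdiff, mem_filter] at hy
    by_contra hcon
    push Not at hcon
    exact hy.2 ⟨hy.1, hcon⟩

end Pool.Agent.TH458.VC
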