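import Pool.Agent.TH458.VC.Fin
import Pool.Agent.TH458.VC.Cor

set_option autoImplicit false

/-!
# The asymptotic upper bound
-/

namespace Pool.Agent.TH458.VC

open Finset
open Pool.Agent.H818R2.Ram

theorem lt_four_pow {n k : ℕ} (hk : 2 ≤ k) (G : SimpleGraph (Fin n)) (h1 : G.CliqueFree k)
    (h2 : Gᶜ.CliqueFree k) : n < 4 ^ k := by
  by_contra hcon
  push Not at hcon
  obtain ⟨a, rfl⟩ : ∃ a, k = a + 1 := ⟨k - 1, by omega⟩
  have hA := arrows_choose a a
  have h3 : (a + a).choose a ≤ n := by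
    calc (a + a).choose a ≤ 2 ^ (a + a) := Nat.choose_le_two_pow _ _
      _ = 4 ^ a := by rw [← two_mul, pow_mul]; norm_num
      _ ≤ 4 ^ (a + 1) := Nat.pow_le_pow_right (by norm_num) (by omega)
      _ ≤ n := hcon
  -- restrict to the first vertices
  set m := (a + a).choose a with hm
  let e : Fin m ↪ Fin n := Fin.castLEEmb h3
  rcases hA (G.comap e) with ⟨s, hs⟩ | ⟨s, hs⟩
  · exact h1 (s.map e) ⟨by
      rintro x hx y hy hxy
      rw [mem_coe, mem_map] at hx hy
      obtain ⟨x', hx', rfl⟩ := hx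
      obtain ⟨y', hy', rfl⟩ := hy
      exact hs.1 hx' hy' (fun h => hxy (by rw [h])), by rw [card_map]; exact hs.2⟩
  · exact h2 (s.map e) ⟨by
      rintro x hx y hy hxy
      rw [mem_coe, mem_map] at hx hy
      obtain ⟨x', hx', rfl⟩ := hx
      obtain ⟨y', hy', rfl⟩ := hy
      have h := hs.1 hx' hy' (fun h => hxy (by rw [h]))
      rw [SimpleGraph.compl_adj] at h ⊢
      exact ⟨hxy, fun h' => h.2 h'⟩, by rw [card_map]; exact hs.2⟩

theorem t_UP (hA : S_ASY) : S_UP := by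
  obtain ⟨C, hC, h⟩ := hA
  refine ⟨C, hC, fun n k d G hn hk hd h1 h2 h3 => ?_⟩
  exact h n k d hn hk hd (lt_four_pow hk G h1 h2)
    (fun a T ha hT hTa => t_FIN n k d a T G hd ha hT hTa h1 h2 h3)

end Pool.Agent.TH458.VC
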